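import Pool.Agent.Q237.FAL.Base

/-! # Job FAL-OZ -/

set_option autoImplicit false

namespace Pool.Agent.Q237.FAL

open Pool.Agent.Q99.FAL

theorem cor_nn {R : Type} [CommRing R] [LinearOrder R] [IsStrictOrderedRing R] (z : Fin 6 → R)
    (hz : ∀ i, 0 ≤ z i) (j : Fin 4) : 0 ≤ cor z j := by
  have := hz 0; have := hz 1; have := hz 2; have := hz 3; have := hz 4; have := hz 5
  fin_cases j <;> simp [cor] <;> linarith

theorem le_cor {R : Type} [CommRing R] [LinearOrder R] [IsStrictOrderedRing R] (z : Fin 6 → R)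
    (hz : ∀ i, 0 ≤ z i) (i : Fin 6) : z i ≤ cor z (c6 i) := by
  have := hz 0; have := hz 1; have := hz 2; have := hz 3; have := hz 4; have := hz 5
  fin_cases i <;> simp [cor, c6] <;> linarith

theorem mid_nn {R : Type} [CommRing R] [LinearOrder R] [IsStrictOrderedRing R] (T : Ty)
    (q : Fin 4 → R) (hq : ∀ i, 0 ≤ q i) : ∀ g ∈ mid T q, 0 ≤ g := by
  have := hq 0; have := hq 1; have := hq 2; have := hq 3
  cases T <;> simp [mid] <;> (try constructor) <;> linarith

theorem oz {R : Type} [CommRing R] [LinearOrder R] [IsStrictOrderedRing R] : ∀ (D : List Pc)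
    (n : ℕ), Val D n → ∀ (a : Fin D.length → Fin 6 → R)
    (G : List R) (u : R), G.length = n + 1 → (∀ g ∈ G, 0 ≤ g) → (∀ k i, 0 ≤ a k i) →
    Sol D a G u → G.head? = some 0 ∧ G.getLast? = some 0 ∧
      ∀ k i, Out D n k (c6 i) → a k i = 0
  | [], n, hV, a, G, u, hl, hG, ha, hs => by
    have h' : G = [0, 0] := hs
    subst h'
    exact ⟨rfl, rfl, fun k => k.elim0⟩
  | P :: D, n, hV, a, G, u, hl, hG, ha, hs => by
    obtain ⟨hv1, hv2⟩ := hV
    obtain ⟨h1, h2, h3⟩ := hs
    have hle := stp_len P.ty (cor (a 0)) n P.p G hv1 hl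
    obtain ⟨A, x, m, y, r, rfl, hA, hm⟩ := dec P.ty P.p G (by omega)
    have hq := cor_nn (a 0) (ha 0)
    have hst : stp P.ty P.p (cor (a 0)) (A ++ x :: (m ++ y :: r)) =
        A ++ (x + cor (a 0) (lc P.ty)) :: (mid P.ty (cor (a 0)) ++
          (y + cor (a 0) (rc P.ty)) :: r) := by
      rw [← hA]
      exact stp_eq P.ty _ A x m y r hm
    rw [hst] at h3 hle
    have hx : 0 ≤ x := hG x (by simp)
    have hy : 0 ≤ y := hG y (by simp)
    obtain ⟨i1, i2, i3⟩ := oz D _ hv2 (fun k => a k.succ) _ u hle (by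
      intro g hg
      simp only [List.mem_append, List.mem_cons] at hg
      rcases hg with hg | hg | hg | hg | hg
      · exact hG g (by simp [hg])
      · rw [hg]; exact add_nonneg hx (hq _)
      · exact mid_nn P.ty _ hq g hg
      · rw [hg]; exact add_nonneg hy (hq _)
      · exact hG g (by simp [hg])) (fun k i => ha k.succ i) h3
    -- the first gap
    have c1 : (A = [] → cor (a 0) (lc P.ty) = 0) ∧
        (A ++ x :: (m ++ y :: r)).head? = some 0 := by
      rcases A with _ | ⟨z, A⟩
      · simp only [List.nil_append, List.head?_cons, Option.some.injEq] at i1 ⊢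
        have := hq (lc P.ty)
        exact ⟨fun _ => by linarith, by linarith⟩
      · simp only [List.cons_append, List.head?_cons, Option.some.injEq] at i1 ⊢
        exact ⟨fun h => by simp at h, i1⟩
    have c2 : (r = [] → cor (a 0) (rc P.ty) = 0) ∧
        (A ++ x :: (m ++ y :: r)).getLast? = some 0 := by
      rcases List.eq_nil_or_concat r with rfl | ⟨r', z, rfl⟩
      · have e1 : A ++ (x + cor (a 0) (lc P.ty)) :: (mid P.ty (cor (a 0)) ++
          [y + cor (a 0) (rc P.ty)]) = (A ++ (x + cor (a 0) (lc P.ty)) ::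
            mid P.ty (cor (a 0))) ++ [y + cor (a 0) (rc P.ty)] := by simp
        have e2 : A ++ x :: (m ++ [y]) = (A ++ x :: m) ++ [y] := by simp
        rw [e1, List.getLast?_concat, Option.some.injEq] at i2
        rw [e2, List.getLast?_concat, Option.some.injEq]
        have := hq (rc P.ty)
        exact ⟨fun _ => by linarith, by linarith⟩
      · have e1 : A ++ (x + cor (a 0) (lc P.ty)) :: (mid P.ty (cor (a 0)) ++
          (y + cor (a 0) (rc P.ty)) :: (r' ++ [z])) = (A ++ (x + cor (a 0) (lc P.ty)) ::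
            (mid P.ty (cor (a 0)) ++ (y + cor (a 0) (rc P.ty)) :: r')) ++ [z] := by simp
        have e2 : A ++ x :: (m ++ y :: (r' ++ [z])) = (A ++ x :: (m ++ y :: r')) ++ [z] := by simp
        rw [List.concat_eq_append, e1, List.getLast?_concat] at i2
        rw [List.concat_eq_append, e2, List.getLast?_concat]
        exact ⟨fun h => by simp at h, i2⟩
    refine ⟨c1.2, c2.2, ?_⟩
    intro k i
    refine Fin.cases ?_ (fun j => ?_) k
    · intro ho
      have ho' : (P.p = 0 ∧ c6 i = lc P.ty) ∨ (P.p + wd P.ty = n ∧ c6 i = rc P.ty) := ho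
      have hc : cor (a 0) (c6 i) = 0 := by
        rcases ho' with ⟨hp, hi⟩ | ⟨hp, hi⟩
        · rw [hi]
          exact c1.1 (List.length_eq_zero_iff.1 (by omega))
        · rw [hi]
          refine c2.1 (List.length_eq_zero_iff.1 ?_)
          simp only [List.length_append, List.length_cons] at hl
          omega
      exact le_antisymm (hc ▸ le_cor (a 0) (ha 0) i) (ha 0 i)
    · intro ho
      exact i3 j i ho

/-- **Job FAL-OZ.** -/
theorem task_OZ : S_OZ :=
  ⟨fun D n h a G u h1 h2 h3 h4 => (oz D n h a G u h1 h2 h3 h4).2.2,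
    fun D n h a G u h1 h2 h3 h4 => (oz D n h a G u h1 h2 h3 h4).2.2⟩

end Pool.Agent.Q237.FAL
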