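import Pool.Agent.Q237.FAL.Base

/-! # Job FAL-SO -/

set_option autoImplicit false

namespace Pool.Agent.Q237.FAL

open Pool.Agent.Q99.FAL

theorem sol_iff {R : Type} [CommRing R] : ∀ (D : List Pc) (a : Fin D.length → Fin 6 → R)
    (G : List R) (u : R), Sol D a G u ↔ (∀ k, n1 (a k) + n2 (a k) = u) ∧
      (∀ c ∈ clo D a G, c = u) ∧ gfi D a G = [0, 0]
  | [], a, G, u => by
    constructor
    · intro h
      exact ⟨fun k => k.elim0, by intro c hc; simp [clo] at hc, h⟩
    · rintro ⟨_, _, h⟩
      exact h
  | P :: D, a, G, u => by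
    have ih := sol_iff D (fun k => a k.succ) (stp P.ty P.p (cor (a 0)) G) u
    constructor
    · rintro ⟨h1, h2, h3⟩
      obtain ⟨i1, i2, i3⟩ := ih.1 h3
      refine ⟨?_, ?_, i3⟩
      · intro k
        refine Fin.cases h1 (fun j => ?_) k
        exact i1 j
      · intro c hc
        rcases List.mem_append.1 hc with hc | hc
        · exact h2 c hc
        · exact i2 c hc
    · rintro ⟨h1, h2, h3⟩
      refine ⟨h1 0, fun c hc => h2 c (List.mem_append.2 (Or.inl hc)), ih.2 ⟨fun k => h1 k.succ,
        fun c hc => h2 c (List.mem_append.2 (Or.inr hc)), h3⟩⟩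

theorem sol_map {R R' : Type} [CommRing R] [CommRing R'] (f : R →+ R') : ∀ (D : List Pc)
    (a : Fin D.length → Fin 6 → R) (G : List R) (u : R), Sol D a G u →
      Sol D (fun k i => f (a k i)) (G.map f) (f u)
  | [], a, G, u, h => by
    have h' : G = [0, 0] := h
    subst h'
    simp [Sol]
  | P :: D, a, G, u, h => by
    obtain ⟨h1, h2, h3⟩ := h
    refine ⟨?_, ?_, ?_⟩
    · rw [n1_map, n2_map, ← map_add, h1]
    · intro c hc
      rw [cor_map, cls_map f (fun a b => map_add f a b)] at hc
      obtain ⟨c', hc', rfl⟩ := List.mem_map.1 hc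
      rw [h2 c' hc']
    · rw [cor_map, stp_map f (fun a b => map_add f a b)]
      exact sol_map f D _ _ _ h3

theorem sol_joint {R R1 R2 : Type} [CommRing R] [CommRing R1] [CommRing R2] (f : R →+ R1)
    (g : R →+ R2) (hfg : ∀ x y, f x = f y → g x = g y → x = y) : ∀ (D : List Pc)
    (a : Fin D.length → Fin 6 → R) (G : List R) (u : R),
      Sol D (fun k i => f (a k i)) (G.map f) (f u) → Sol D (fun k i => g (a k i)) (G.map g) (g u) →
      Sol D a G u
  | [], a, G, u, h, h' => by
    have e1 : G.map f = [0, 0] := h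
    have e2 : G.map g = [0, 0] := h'
    rcases G with _ | ⟨x, _ | ⟨y, _ | ⟨z, G⟩⟩⟩ <;> simp at e1 e2
    have hx : x = 0 := hfg x 0 (by rw [e1.1, map_zero]) (by rw [e2.1, map_zero])
    have hy : y = 0 := hfg y 0 (by rw [e1.2, map_zero]) (by rw [e2.2, map_zero])
    subst hx; subst hy
    rfl
  | P :: D, a, G, u, h, h' => by
    obtain ⟨h1, h2, h3⟩ := h
    obtain ⟨k1, k2, k3⟩ := h'
    rw [n1_map, n2_map, ← map_add] at h1 k1
    rw [cor_map, cls_map f (fun a b => map_add f a b)] at h2
    rw [cor_map, cls_map g (fun a b => map_add g a b)] at k2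
    rw [cor_map, stp_map f (fun a b => map_add f a b)] at h3
    rw [cor_map, stp_map g (fun a b => map_add g a b)] at k3
    refine ⟨hfg _ _ h1 k1, ?_, sol_joint f g hfg D _ _ _ h3 k3⟩
    intro c hc
    exact hfg _ _ (h2 _ (List.mem_map_of_mem hc)) (k2 _ (List.mem_map_of_mem hc))

/-- **Job FAL-SO.** -/
theorem task_SO : S_SO := by
  refine ⟨fun R _ D a G u => sol_iff D a G u, ?_, ?_, fun R R' _ _ f D a G u h => sol_map f D a G u h,
    ?_⟩
  · intro R _ D a a' G G' u u' hl h h'
    have hz := sol_joint (AddMonoidHom.fst R R) (AddMonoidHom.snd R R)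
      (fun x y h1 h2 => Prod.ext h1 h2) D (fun k i => (a k i, a' k i)) (G.zip G') (u, u')
      (by
        have e : (G.zip G').map (AddMonoidHom.fst R R) = G := by
          have : (G.zip G').map (AddMonoidHom.fst R R) = (G.zip G').map Prod.fst := rfl
          rw [this]
          exact List.map_fst_zip (by omega)
        rw [e]
        exact h)
      (by
        have e : (G.zip G').map (AddMonoidHom.snd R R) = G' := by
          have : (G.zip G').map (AddMonoidHom.snd R R) = (G.zip G').map Prod.snd := rfl
          rw [this]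
          exact List.map_snd_zip (by omega)
        rw [e]
        exact h')
    have hs := sol_map (AddMonoidHom.coprod (AddMonoidHom.id R) (AddMonoidHom.id R)) D _ _ _ hz
    have e : (G.zip G').map (AddMonoidHom.coprod (AddMonoidHom.id R) (AddMonoidHom.id R)) =
        List.zipWith (· + ·) G G' := by
      rw [List.zip, List.map_zipWith]
      rfl
    rw [e] at hs
    exact hs
  · intro R _ D a G u r h
    have := sol_map (AddMonoidHom.mulLeft r) D a G u h
    exact this
  · intro D a G u h
    have e : ∀ G : List ℤ, (List.map (fun g : ℝ => g) (do let a ← G; pure ((a : ℤ) : ℝ))) =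
        G.map (Int.castAddHom ℝ) := by
      intro G
      induction G with
      | nil => rfl
      | cons a G ih =>
        simp only [List.map_cons, ← ih]
        rfl
    rw [e] at h
    exact sol_joint (Int.castAddHom ℝ) (Int.castAddHom ℝ)
      (fun x y h1 _ => Int.cast_injective h1) D a G u h h

end Pool.Agent.Q237.FAL
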