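import Pool.Agent.Q237.FAL.Base

/-! # Job FAL-NC -/

set_option autoImplicit false

namespace Pool.Agent.Q237.FAL

open Pool.Agent.Q99.FAL

theorem nc1 : ∀ (D : List Pc) (n : ℕ), Val D n →
    2 * (D.map fun P => ncl P.ty).sum + 1 = 2 * D.length + n
  | [], n, h => by
    have h' : n = 1 := h
    subst h'
    simp
  | P :: D, n, h => by
    obtain ⟨h1, h2⟩ := h
    have ih := nc1 D _ h2
    have := ncl_up P.ty n P.p h1
    simp only [List.map_cons, List.sum_cons, List.length_cons]
    omega

theorem nc2 {R : Type} [CommRing R] : ∀ (D : List Pc) (n : ℕ), Val D n →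
    ∀ (a : Fin D.length → Fin 6 → R)
    (G : List R), G.length = n + 1 → (clo D a G).length = (D.map fun P => ncl P.ty).sum ∧
    (gfi D a G).length = 2 ∧
    (clo D a G).sum + (gfi D a G).sum = G.sum + ∑ k, (n1 (a k) + n2 (a k))
  | [], n, h, a, G, hG => by
    have h' : n = 1 := h
    subst h'
    refine ⟨by simp [clo], hG, ?_⟩
    simp [clo, gfi]
  | P :: D, n, h, a, G, hG => by
    obtain ⟨h1, h2⟩ := h
    obtain ⟨i1, i2, i3⟩ := nc2 D _ h2 (fun k => a k.succ) (stp P.ty P.p (cor (a 0)) G)
      (stp_len P.ty _ n P.p G h1 hG)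
    refine ⟨?_, i2, ?_⟩
    · simp only [clo, List.map_cons, List.sum_cons, List.length_append]
      rw [i1, cls_len P.ty _ n P.p G h1 hG]
    · have hc := cons_law P.ty (a 0) n P.p G h1 hG
      have hs : ∑ k : Fin (P :: D).length, (n1 (a k) + n2 (a k)) =
          (n1 (a 0) + n2 (a 0)) + ∑ k : Fin D.length, (n1 (a k.succ) + n2 (a k.succ)) :=
        Fin.sum_univ_succ (n := D.length) _
      rw [hs]
      simp only [clo, gfi, List.sum_append]
      linear_combination hc + i3

/-- **Job FAL-NC.** -/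
theorem task_NC : S_NC := ⟨nc1, fun R _ D n h a G hG => nc2 D n h a G hG⟩

end Pool.Agent.Q237.FAL
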