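import Pool.Agent.Q237.FAL.Base

/-! # Job FAL-SUR -/

set_option autoImplicit false

namespace Pool.Agent.Q237.FAL

open Pool.Agent.Q99.FAL

/-- the choice of the six angles of one piece -/
theorem exq {R : Type} [CommRing R] (T : Ty) (p n : ℕ) (m w1 : List R) (u0 : R)
    (hm : m.length + 1 = wd T) (hw : w1.length = ncl T)
    (h : (p = 0 ∧ p + wd T = n ∧ 3 ≤ wd T) → w1.sum = m.sum + u0) :
    ∃ z : Fin 6 → R, n1 z + n2 z = u0 ∧ ccl T (cor z) m = w1 ∧
      (p = 0 → ∀ i, c6 i = lc T → z i = 0) ∧ (p + wd T = n → ∀ i, c6 i = rc T → z i = 0) := by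
  cases T <;> simp only [wd] at hm h ⊢ <;> simp only [ncl] at hw
  · -- V
    rcases m with _ | ⟨g, _ | ⟨b, m⟩⟩ <;> simp at hm
    rcases w1 with _ | ⟨w, _ | ⟨b, w1⟩⟩ <;> simp at hw
    refine ⟨![w - g, 0, 0, u0 - (w - g), 0, 0], ?_, ?_, ?_, ?_⟩
    · simp [n1, n2]
    · simp [ccl, cor]
    · intro _ i hi
      fin_cases i <;> simp [c6, lc] at hi ⊢
    · intro _ i hi
      fin_cases i <;> simp [c6, rc] at hi ⊢
  · -- H
    rcases m with _ | ⟨g, _ | ⟨b, m⟩⟩ <;> simp at hm
    rcases w1 with _ | ⟨w, _ | ⟨b, w1⟩⟩ <;> simp at hw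
    refine ⟨![0, u0 - (w - g), w - g, 0, 0, 0], ?_, ?_, ?_, ?_⟩
    · simp [n1, n2]
    · simp [ccl, cor]
    · intro _ i hi
      fin_cases i <;> simp [c6, lc] at hi ⊢
    · intro _ i hi
      fin_cases i <;> simp [c6, rc] at hi ⊢
  · -- YL
    rcases m with _ | ⟨g, m⟩ <;> simp at hm
    rcases w1 with _ | ⟨w, w1⟩ <;> simp at hw
    refine ⟨![0, 0, 0, u0, 0, 0], ?_, ?_, ?_, ?_⟩
    · simp [n1, n2]
    · simp [ccl]
    · intro _ i hi
      fin_cases i <;> simp [c6, lc] at hi ⊢
    · intro _ i hi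
      fin_cases i <;> simp [c6, rc] at hi ⊢
  · -- YR
    rcases m with _ | ⟨g, m⟩ <;> simp at hm
    rcases w1 with _ | ⟨w, w1⟩ <;> simp at hw
    refine ⟨![0, 0, 0, u0, 0, 0], ?_, ?_, ?_, ?_⟩
    · simp [n1, n2]
    · simp [ccl]
    · intro _ i hi
      fin_cases i <;> simp [c6, lc] at hi ⊢
    · intro _ i hi
      fin_cases i <;> simp [c6, rc] at hi ⊢
  · -- LL
    rcases m with _ | ⟨g, _ | ⟨b, _ | ⟨c, m⟩⟩⟩ <;> simp at hm
    rcases w1 with _ | ⟨w, _ | ⟨w', _ | ⟨c, w1⟩⟩⟩ <;> simp at hw
    by_cases hp : p = 0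
    · by_cases hn : p + 3 = n
      · have h' := h ⟨hp, hn, le_refl _⟩
        simp at h'
        refine ⟨![w - g, w' - b, 0, 0, 0, 0], ?_, ?_, ?_, ?_⟩
        · simp [n1, n2]
          linear_combination h'
        · simp [ccl, cor]
        · intro _ i hi
          fin_cases i <;> simp [c6, lc] at hi ⊢
        · intro _ i hi
          fin_cases i <;> simp [c6, rc] at hi ⊢
      · refine ⟨![w - g, w' - b, 0, u0 - (w - g) - (w' - b), 0, 0], ?_, ?_, ?_, ?_⟩
        · simp [n1, n2]
          try ring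
        · simp [ccl, cor]
        · intro _ i hi
          fin_cases i <;> simp [c6, lc] at hi ⊢
        · intro h' 
          exact absurd h' hn
    · refine ⟨![w - g, w' - b, u0 - (w - g) - (w' - b), 0, 0, 0], ?_, ?_, ?_, ?_⟩
      · simp [n1, n2]
        try ring
      · simp [ccl, cor]
      · intro h'
        exact absurd h' hp
      · intro _ i hi
        fin_cases i <;> simp [c6, rc] at hi ⊢
  · -- LR
    rcases m with _ | ⟨g, _ | ⟨b, _ | ⟨c, m⟩⟩⟩ <;> simp at hm
    rcases w1 with _ | ⟨w, _ | ⟨w', _ | ⟨c, w1⟩⟩⟩ <;> simp at hw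
    by_cases hp : p = 0
    · by_cases hn : p + 3 = n
      · have h' := h ⟨hp, hn, le_refl _⟩
        simp at h'
        refine ⟨![w' - b, 0, w - g, 0, 0, 0], ?_, ?_, ?_, ?_⟩
        · simp [n1, n2]
          linear_combination h'
        · simp [ccl, cor]
        · intro _ i hi
          fin_cases i <;> simp [c6, lc] at hi ⊢
        · intro _ i hi
          fin_cases i <;> simp [c6, rc] at hi ⊢
      · refine ⟨![w' - b, u0 - (w - g) - (w' - b), w - g, 0, 0, 0], ?_, ?_, ?_, ?_⟩
        · simp [n1, n2]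
          try ring
        · simp [ccl, cor]
        · intro _ i hi
          fin_cases i <;> simp [c6, lc] at hi ⊢
        · intro h' 
          exact absurd h' hn
    · refine ⟨![w' - b, 0, w - g, u0 - (w - g) - (w' - b), 0, 0], ?_, ?_, ?_, ?_⟩
      · simp [n1, n2]
        try ring
      · simp [ccl, cor]
      · intro h'
        exact absurd h' hp
      · intro _ i hi
        fin_cases i <;> simp [c6, rc] at hi ⊢

/-- the six angles of the first piece, and the gaps above it -/
theorem exq2 {R : Type} [CommRing R] (T : Ty) (p n : ℕ) (hv : p + wd T ≤ n) (G w1 : List R)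
    (u0 : R) (hl : G.length = n + 1) (hh : G.head? = some 0) (ht : G.getLast? = some 0)
    (hw : w1.length = ncl T) (h : (p = 0 ∧ p + wd T = n ∧ 3 ≤ wd T) → w1.sum = G.sum + u0) :
    ∃ z : Fin 6 → R, n1 z + n2 z = u0 ∧ cls T p (cor z) G = w1 ∧
      (∀ i, (p = 0 ∧ c6 i = lc T) ∨ (p + wd T = n ∧ c6 i = rc T) → z i = 0) ∧
      (stp T p (cor z) G).head? = some 0 ∧ (stp T p (cor z) G).getLast? = some 0 := by
  obtain ⟨A, x, m, y, r, rfl, rfl, hm⟩ := dec T p G (by omega)
  simp only [List.length_append, List.length_cons] at hl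
  have hlen : A.length + 1 + m.length + 1 + r.length = n + 1 := by omega
  have hx : A = [] → x = 0 := by
    rintro rfl
    simpa using hh
  have hy : r = [] → y = 0 := by
    rintro rfl
    have e2 : A ++ x :: (m ++ [y]) = (A ++ x :: m) ++ [y] := by simp
    rw [e2, List.getLast?_concat, Option.some.injEq] at ht
    exact ht
  obtain ⟨z, z1, z2, z3, z4⟩ := exq T A.length n m w1 u0 hm hw (by
    rintro ⟨h1, h2, h3⟩
    have e := h ⟨h1, h2, h3⟩
    have hA : A = [] := List.length_eq_zero_iff.1 h1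
    have hr : r = [] := List.length_eq_zero_iff.1 (by omega)
    rw [e, hx hA, hy hr, hA, hr]
    simp)
  have hc0 : ∀ j : Fin 4, (∀ i, c6 i = j → z i = 0) → cor z j = 0 := by
    intro j hj
    fin_cases j
    · simpa [cor] using hj 0 rfl
    · have a1 := hj 1 rfl
      have a2 := hj 4 rfl
      simp [cor, a1, a2]
    · simpa [cor] using hj 3 rfl
    · have a1 := hj 2 rfl
      have a2 := hj 5 rfl
      simp [cor, a1, a2]
  refine ⟨z, z1, ?_, ?_, ?_, ?_⟩
  · rw [cls_eq T _ A x m y r hm, z2]
  · rintro i (⟨h1, h2⟩ | ⟨h1, h2⟩)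
    · exact z3 h1 i h2
    · exact z4 h1 i h2
  · rw [stp_eq T _ A x m y r hm]
    rcases A with _ | ⟨b, A⟩
    · rw [hx rfl, hc0 _ (z3 rfl)]
      simp
    · simpa using hh
  · rw [stp_eq T _ A x m y r hm]
    rcases List.eq_nil_or_concat r with rfl | ⟨r', b, rfl⟩
    · have e1 : A ++ (x + cor z (lc T)) :: (mid T (cor z) ++
          [y + cor z (rc T)]) = (A ++ (x + cor z (lc T)) ::
            mid T (cor z)) ++ [y + cor z (rc T)] := by simp
      have hn : A.length + wd T = n := by
        simp only [List.length_nil] at hlen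
        omega
      rw [e1, List.getLast?_concat, hy rfl, hc0 _ (z4 hn), add_zero]
    · have e1 : A ++ (x + cor z (lc T)) :: (mid T (cor z) ++
          (y + cor z (rc T)) :: (r' ++ [b])) = (A ++ (x + cor z (lc T)) ::
            (mid T (cor z) ++ (y + cor z (rc T)) :: r')) ++ [b] := by simp
      have e2 : A ++ x :: (m ++ y :: (r' ++ [b])) = (A ++ x :: (m ++ y :: r')) ++ [b] := by simp
      rw [List.concat_eq_append, e2, List.getLast?_concat] at ht
      rw [List.concat_eq_append, e1, List.getLast?_concat, ht]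

theorem sur {R : Type} [CommRing R] : ∀ (D : List Pc) (n : ℕ), Val D n → Pri D n → D ≠ [] →
    ∀ G : List R, G.length = n + 1 → G.head? = some 0 → G.getLast? = some 0 →
    ∀ (u : Fin D.length → R) (w : List R), w.length = (D.map fun P => ncl P.ty).sum →
    w.sum = G.sum + ∑ k, u k → ∃ a : Fin D.length → Fin 6 → R,
      (∀ k i, Out D n k (c6 i) → a k i = 0) ∧ (∀ k, n1 (a k) + n2 (a k) = u k) ∧
      clo D a G = w ∧ gfi D a G = [0, 0]
  | [], _, _, _, h, _, _, _, _, _, _, _, _ => absurd rfl h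
  | P :: D, n, hV, hP, _, G, hl, hh, ht, u, w, hw, hs => by
    obtain ⟨hv1, hv2⟩ := hV
    obtain ⟨hp1, hp2⟩ := hP
    simp only [List.map_cons, List.sum_cons] at hw
    have hsum : ∑ k : Fin (P :: D).length, u k = u 0 + ∑ k : Fin D.length, u k.succ :=
      Fin.sum_univ_succ (n := D.length) _
    rw [hsum] at hs
    have hw1 : (w.take (ncl P.ty)).length = ncl P.ty := by
      rw [List.length_take]; omega
    have hw2 : (w.drop (ncl P.ty)).length = (D.map fun P => ncl P.ty).sum := by
      rw [List.length_drop]; omega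
    have hws : (w.take (ncl P.ty)).sum + (w.drop (ncl P.ty)).sum = w.sum := by
      rw [← List.sum_append, List.take_append_drop]
    obtain ⟨z, z1, z2, z3, z4, z5⟩ := exq2 P.ty P.p n hv1 G (w.take (ncl P.ty)) (u 0) hl hh ht hw1
      (by
        rintro ⟨h1, h2, h3⟩
        have hD : D = [] := by
          rcases hp1 with h | h
          · exact h
          · exfalso
            apply h
            have hn : n = wd P.ty := by omega
            subst hn
            revert h3
            generalize P.ty = T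
            intro h3
            cases T <;> simp [wd, up] at h3 ⊢
        subst hD
        have hw0 : w.drop (ncl P.ty) = [] := List.length_eq_zero_iff.1 (by rw [hw2]; simp)
        rw [hw0] at hws
        simp only [List.sum_nil, add_zero] at hws
        rw [hws, hs]
        simp)
    have hcl := cons_law P.ty z n P.p G hv1 hl
    have hlen := stp_len P.ty (cor z) n P.p G hv1 hl
    rw [z1, z2] at hcl
    have key : ∃ a' : Fin D.length → Fin 6 → R,
        (∀ k i, Out D (up P.ty n) k (c6 i) → a' k i = 0) ∧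
        (∀ k, n1 (a' k) + n2 (a' k) = u k.succ) ∧
        clo D a' (stp P.ty P.p (cor z) G) = w.drop (ncl P.ty) ∧
        gfi D a' (stp P.ty P.p (cor z) G) = [0, 0] := by
      by_cases hD : D = []
      · subst hD
        have hn : up P.ty n = 1 := hv2
        have hw0 : w.drop (ncl P.ty) = [] := List.length_eq_zero_iff.1 (by rw [hw2]; simp)
        refine ⟨fun k => k.elim0, fun k => k.elim0, fun k => k.elim0, ?_, ?_⟩
        · rw [hw0]; rfl
        · have e : gfi [] (fun k => k.elim0) (stp P.ty P.p (cor z) G) =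
            stp P.ty P.p (cor z) G := rfl
          rw [e]
          rw [hn] at hlen
          rcases hst : stp P.ty P.p (cor z) G with _ | ⟨b, _ | ⟨c, _ | ⟨d, l⟩⟩⟩ <;>
            rw [hst] at z4 z5 hlen <;> simp at z4 z5 hlen ⊢
          exact ⟨z4, z5⟩
      · exact sur D _ hv2 hp2 hD _ hlen z4 z5 (fun k => u k.succ) _ hw2
          (by linear_combination hs + hws - hcl)
    obtain ⟨a', a1, a2, a3, a4⟩ := key
    refine ⟨fun k => Fin.cases (motive := fun _ => Fin 6 → R) z a' k, ?_, ?_, ?_, ?_⟩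
    · intro k i
      refine Fin.cases ?_ (fun j => ?_) k
      · intro ho
        exact z3 i ho
      · intro ho
        exact a1 j i ho
    · intro k
      refine Fin.cases ?_ (fun j => ?_) k
      · exact z1
      · exact a2 j
    · have e : clo (P :: D) (fun k => Fin.cases (motive := fun _ => Fin 6 → R) z a' k) G =
        cls P.ty P.p (cor z) G ++ clo D a' (stp P.ty P.p (cor z) G) := rfl
      rw [e, z2, a3, List.take_append_drop]
    · exact a4

/-- **Job FAL-SUR.** -/
theorem task_SUR : S_SUR := fun _ _ D n h1 h2 h3 G h4 h5 h6 u w h7 h8 =>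
  sur D n h1 h2 h3 G h4 h5 h6 u w h7 h8

end Pool.Agent.Q237.FAL
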