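import Pool.Agent.Q99.FAL.Stm4

/-! # Fully augmented links: one piece (jobs FAL-SO, OZ, SUR, NC) -/

set_option autoImplicit false

namespace Pool.Agent.Q237.FAL

open Pool.Agent.Q99.FAL

/-- the new gaps between the two outer gaps of a piece -/
def mid {R : Type} (T : Ty) (q : Fin 4 → R) : List R :=
  match T with
  | .V => [q 2]
  | .H => [q 1]
  | .YL => [q 2, q 1]
  | .YR => [q 3, q 2]
  | .LL => []
  | .LR => []

/-- the sums of the regions which end at a piece, `m` are their gaps -/
def ccl {R : Type} [Add R] (T : Ty) (q : Fin 4 → R) (m : List R) : List R :=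
  match T, m with
  | .V, [g] => [g + q 0]
  | .H, [g] => [g + q 3]
  | .LL, [g, h] => [g + q 0, h + q 1]
  | .LR, [g, h] => [g + q 3, h + q 0]
  | _, _ => []

theorem dec {R : Type} (T : Ty) (p : ℕ) (G : List R) (h : p + wd T < G.length) :
    ∃ A x m y r, G = A ++ x :: (m ++ y :: r) ∧ A.length = p ∧ m.length + 1 = wd T := by
  have hw : 1 ≤ wd T := by cases T <;> simp [wd]
  have hl : (G.drop p).length = G.length - p := List.length_drop
  cases h1 : G.drop p with
  | nil => rw [h1] at hl; simp at hl; omega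
  | cons x l =>
    rw [h1, List.length_cons] at hl
    have hl2 : (l.drop (wd T - 1)).length = l.length - (wd T - 1) := List.length_drop
    cases h2 : l.drop (wd T - 1) with
    | nil => rw [h2] at hl2; simp at hl2; omega
    | cons y r =>
      refine ⟨G.take p, x, l.take (wd T - 1), y, r, ?_, ?_, ?_⟩
      · rw [← h2, List.take_append_drop, ← h1, List.take_append_drop]
      · rw [List.length_take]; omega
      · rw [List.length_take]; omega

theorem stp_eq {R : Type} [Add R] (T : Ty) (q : Fin 4 → R) (A : List R) (x : R) (m : List R)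
    (y : R) (r : List R) (hm : m.length + 1 = wd T) :
    stp T A.length q (A ++ x :: (m ++ y :: r)) =
      A ++ (x + q (lc T)) :: (mid T q ++ (y + q (rc T)) :: r) := by
  unfold stp
  rw [List.drop_left, List.take_left]
  cases T <;> simp only [wd] at hm <;> rcases m with _ | ⟨a, _ | ⟨b, _ | ⟨c, m⟩⟩⟩ <;>
    simp [mid, lc, rc] at hm ⊢

theorem cls_eq {R : Type} [Add R] (T : Ty) (q : Fin 4 → R) (A : List R) (x : R) (m : List R)
    (y : R) (r : List R) (hm : m.length + 1 = wd T) :
    cls T A.length q (A ++ x :: (m ++ y :: r)) = ccl T q m := by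
  unfold cls
  rw [List.drop_left]
  cases T <;> simp only [wd] at hm <;> rcases m with _ | ⟨a, _ | ⟨b, _ | ⟨c, m⟩⟩⟩ <;>
    simp [ccl] at hm ⊢

theorem mid_len {R : Type} (T : Ty) (q : Fin 4 → R) (n p : ℕ) (h : p + wd T ≤ n) :
    (mid T q).length + n = up T n + (wd T - 1) := by
  cases T <;> simp [mid, up, wd] at h ⊢ <;> omega

theorem ccl_len {R : Type} [Add R] (T : Ty) (q : Fin 4 → R) (m : List R)
    (hm : m.length + 1 = wd T) : (ccl T q m).length = ncl T := by
  cases T <;> simp only [wd] at hm <;> rcases m with _ | ⟨a, _ | ⟨b, _ | ⟨c, m⟩⟩⟩ <;>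
    simp [ccl, ncl] at hm ⊢

theorem ncl_up (T : Ty) (n p : ℕ) (h : p + wd T ≤ n) : 2 * ncl T + up T n = 2 + n := by
  cases T <;> simp [ncl, up, wd] at h ⊢ <;> omega

theorem stp_len {R : Type} [Add R] (T : Ty) (q : Fin 4 → R) (n p : ℕ) (G : List R)
    (h : p + wd T ≤ n) (hG : G.length = n + 1) : (stp T p q G).length = up T n + 1 := by
  obtain ⟨A, x, m, y, r, rfl, rfl, hm⟩ := dec T p G (by omega)
  rw [stp_eq T q A x m y r hm]
  have := mid_len T q n A.length h
  simp only [List.length_append, List.length_cons] at hG ⊢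
  omega

theorem cls_len {R : Type} [Add R] (T : Ty) (q : Fin 4 → R) (n p : ℕ) (G : List R)
    (h : p + wd T ≤ n) (hG : G.length = n + 1) : (cls T p q G).length = ncl T := by
  obtain ⟨A, x, m, y, r, rfl, rfl, hm⟩ := dec T p G (by omega)
  rw [cls_eq T q A x m y r hm]
  exact ccl_len T q m hm

/-- conservation of the angle sums at one piece -/
theorem cons_law {R : Type} [CommRing R] (T : Ty) (z : Fin 6 → R) (n p : ℕ) (G : List R)
    (h : p + wd T ≤ n) (hG : G.length = n + 1) :
    (cls T p (cor z) G).sum + (stp T p (cor z) G).sum = G.sum + (n1 z + n2 z) := by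
  obtain ⟨A, x, m, y, r, rfl, rfl, hm⟩ := dec T p G (by omega)
  rw [cls_eq T _ A x m y r hm, stp_eq T _ A x m y r hm]
  cases T <;> simp only [wd] at hm <;> rcases m with _ | ⟨a, _ | ⟨b, _ | ⟨c, m⟩⟩⟩ <;>
    simp [ccl, mid, lc, rc, cor, n1, n2] at hm ⊢ <;> ring

/-! ### functoriality -/

theorem stp_map {R R' : Type} [Add R] [Add R'] (f : R → R')
    (hf : ∀ a b, f (a + b) = f a + f b) (T : Ty) (p : ℕ) (q : Fin 4 → R) (G : List R) :
    stp T p (fun i => f (q i)) (G.map f) = (stp T p q G).map f := by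
  have h1 : (G.map f).drop p = (G.drop p).map f := by rw [List.map_drop]
  have h2 : (G.map f).take p = (G.take p).map f := by rw [List.map_take]
  unfold stp
  rw [h1, h2]
  generalize G.take p = A
  generalize G.drop p = l
  cases T <;> rcases l with _ | ⟨x, _ | ⟨y, _ | ⟨z, _ | ⟨w, l⟩⟩⟩⟩ <;> simp [hf]

theorem cls_map {R R' : Type} [Add R] [Add R'] (f : R → R')
    (hf : ∀ a b, f (a + b) = f a + f b) (T : Ty) (p : ℕ) (q : Fin 4 → R) (G : List R) :
    cls T p (fun i => f (q i)) (G.map f) = (cls T p q G).map f := by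
  have h1 : (G.map f).drop p = (G.drop p).map f := by rw [List.map_drop]
  unfold cls
  rw [h1]
  generalize G.drop p = l
  cases T <;> rcases l with _ | ⟨x, _ | ⟨y, _ | ⟨z, _ | ⟨w, l⟩⟩⟩⟩ <;> simp [hf]

theorem cor_map {R R' : Type} [CommRing R] [CommRing R'] (f : R →+ R') (z : Fin 6 → R) :
    cor (fun i => f (z i)) = fun j => f (cor z j) := by
  funext j
  fin_cases j <;> simp [cor, map_add]

theorem n1_map {R R' : Type} [CommRing R] [CommRing R'] (f : R →+ R') (z : Fin 6 → R) :
    n1 (fun i => f (z i)) = f (n1 z) := by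
  simp [n1, map_add]

theorem n2_map {R R' : Type} [CommRing R] [CommRing R'] (f : R →+ R') (z : Fin 6 → R) :
    n2 (fun i => f (z i)) = f (n2 z) := by
  simp [n2, map_add]

end Pool.Agent.Q237.FAL
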